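import Pool.Agent.H81.D3.Targets

/-!
MP_ee74d2_an, board d3n_modules, row MON: monotonicity in the constants.
-/

set_option autoImplicit false

namespace Pool.Agent.H27.D3

open MeasureTheory Set Pool.Agent.H83.G Pool.Agent.H81.D3

theorem St_mono {β : E 2 → ℂ} {G : Z 2 → ℂ} {e H₀ D D' : ℝ} {X : Finset (Z 2)} {w : ℕ}
    {H : ℝ} {P : Finset Pq} {Q : Finset (Z 2 × Pq)} (hD : D ≤ D')
    (h : St β G e H₀ D X w H P Q) : St β G e H₀ D' X w H P Q := by
  have hH := h.H0
  refine ⟨h.w1, h.D1.trans hD, h.H0, h.pk, h.sep, fun κ => (h.tg κ).trans hD, fun q hq => ?_,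
    h.low.trans ?_, h.lev1.trans ?_, h.lev2.trans ?_⟩
  · obtain ⟨h1, h2, h3⟩ := h.rel q hq
    exact ⟨h1, h2, h3.trans hD⟩
  · exact mul_le_mul_of_nonneg_right hD (by positivity)
  · exact mul_le_mul_of_nonneg_right hD (by positivity)
  · exact mul_le_mul_of_nonneg_right hD (by positivity)

theorem En43_nonneg {A R : ℝ} (hA : 0 < A) (hR : 1 ≤ R) (G : Z 2 → ℂ) : 0 ≤ En43 A R G := by
  unfold En43
  have h : 0 ≤ ∫ ζ, ‖G ζ‖ ^ 2 := integral_nonneg fun _ => by positivity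
  have hR0 : 0 < R := by linarith
  positivity

theorem pf_MON : T_MON := by
  refine ⟨?_, ?_, ?_, ?_⟩
  · intro β G e H₀ D D' X w H P Q he hD h
    refine ⟨St_mono hD h, ?_⟩
    rw [Finset.nonempty_iff_ne_empty]
    intro hQ
    have h1 := h.low
    rw [hQ, Finset.card_empty, Nat.cast_zero, zero_mul, zero_mul, mul_zero] at h1
    linarith
  · intro β G e H₀ D D' X K₁ n w H P Q he hD h
    refine ⟨St_mono hD h.toSt, h.K1, h.Kw, h.tgd, fun z t => (h.tdeg z t).trans ?_, h.top⟩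
    have hK : (0 : ℝ) < K₁ := by exact_mod_cast h.K1
    gcongr
  · intro L ε C C' hC h R A H G X hR hA hH hG hX hz
    refine (h R A H G X hR hA hH hG hX hz).trans ?_
    have h1 := En43_nonneg hA hR G
    have hR0 : 0 < R := by linarith
    have h2 : 0 ≤ R ^ ε := by positivity
    gcongr
  · intro L β N cb₀ C₁ ε δ₁ C C' hC hCC h R Λ K A H n G X hR hK hKΛ hn hA hH hΛ hG hX hz
    refine (h R Λ K A H n G X hR (hCC.trans hK) hKΛ hn hA hH hΛ hG hX hz).trans ?_
    have h1 := En43_nonneg hA hR G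
    have hR0 : 0 < R := by linarith
    have hK0 : 0 < K := by linarith
    have hΛ0 : 0 < Λ := lt_of_lt_of_le (Real.rpow_pos_of_pos hK0 _) hKΛ
    have h2 : 0 ≤ R ^ ε := by positivity
    have h3 : 0 ≤ Λ ^ (-cb₀) := by positivity
    gcongr

end Pool.Agent.H27.D3
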